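import Mathlib

/-! # Two final pieces for the values `n ^ 2 + 1` with three prime factors -/

set_option autoImplicit false

open Finset Filter

namespace Pool.Agent.H31.P3

/-- pairwise congruent integers -/
lemma class_card (N d : ℕ) (hd : 0 < d) (S : Finset ℕ) (hS : ∀ n ∈ S, n ≤ N) (hc : ∀ n ∈ S, ∀ n' ∈ S, n % d = n' % d) :
    S.card ≤ N / d + 1 := by
  have h : S.card ≤ (range (N / d + 1)).card := by
    apply card_le_card_of_injOn (fun n => n / d)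
    · intro n hn
      rw [mem_coe] at hn
      rw [mem_coe, mem_range]
      have := Nat.div_le_div_right (c := d) (hS n hn)
      simp only
      omega
    · intro n hn n' hn' h
      rw [mem_coe] at hn hn'
      simp only at h
      have h1 := Nat.div_add_mod n d
      have h2 := Nat.div_add_mod n' d
      rw [h, hc n hn n' hn'] at h1
      omega
  rwa [card_range] at h

/-- the roots modulo the square of a prime -/
lemma roots_card (N p : ℕ) (hp : p.Prime) : ((Icc 1 N).filter (fun n => p ^ 2 ∣ n ^ 2 + 1)).card ≤ 2 * (N / p ^ 2 + 1) := by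
  classical
  set S := (Icc 1 N).filter (fun n => p ^ 2 ∣ n ^ 2 + 1) with hS
  have hd : 0 < p ^ 2 := by
    have := hp.pos
    positivity
  rcases S.eq_empty_or_nonempty with h0 | ⟨n0, hn0⟩
  · rw [h0, card_empty]
    exact Nat.zero_le _
  have hmem : ∀ n ∈ S, n ≤ N ∧ p ^ 2 ∣ n ^ 2 + 1 := by
    intro n hn
    rw [hS, mem_filter, mem_Icc] at hn
    exact ⟨hn.1.2, hn.2⟩
  -- `p` is odd and does not divide the roots
  have hpn : ∀ n, p ^ 2 ∣ n ^ 2 + 1 → ¬ p ∣ n := by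
    intro n hn h1
    have h2 : p ∣ n ^ 2 + 1 := (dvd_pow_self p two_ne_zero).trans hn
    have h3 : p ∣ n ^ 2 := h1.trans (dvd_pow_self n two_ne_zero)
    have h4 : p ∣ 1 := (Nat.dvd_add_right h3).1 h2
    exact hp.one_lt.ne' (Nat.dvd_one.1 h4)
  have hp2 : p ≠ 2 := by
    rintro rfl
    have h1 := (hmem n0 hn0).2
    have h2 : (n0 ^ 2 + 1) % 4 = 0 := Nat.mod_eq_zero_of_dvd (by simpa using h1)
    rcases Nat.even_or_odd' n0 with ⟨k, hk | hk⟩
    · rw [hk] at h2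
      have : ((2 * k) ^ 2 + 1) % 4 = 1 := by
        have e1 : (2 * k) ^ 2 + 1 = 4 * (k ^ 2) + 1 := by ring
        rw [e1]; omega
      omega
    · rw [hk] at h2
      have : ((2 * k + 1) ^ 2 + 1) % 4 = 2 := by
        have e1 : (2 * k + 1) ^ 2 + 1 = 4 * (k ^ 2 + k) + 2 := by ring
        rw [e1]; omega
      omega
  have hsplit : ∀ n ∈ S, ((p ^ 2 : ℕ) : ℤ) ∣ (n : ℤ) - n0 ∨ ((p ^ 2 : ℕ) : ℤ) ∣ (n : ℤ) + n0 := by
    intro n hn
    have h1 : ((p ^ 2 : ℕ) : ℤ) ∣ ((n : ℤ) - n0) * (n + n0) := by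
      have a1 : ((p ^ 2 : ℕ) : ℤ) ∣ ((n ^ 2 + 1 : ℕ) : ℤ) := Int.natCast_dvd_natCast.2 (hmem n hn).2
      have a2 : ((p ^ 2 : ℕ) : ℤ) ∣ ((n0 ^ 2 + 1 : ℕ) : ℤ) := Int.natCast_dvd_natCast.2 (hmem n0 hn0).2
      have a3 := dvd_sub a1 a2
      have e1 : ((n ^ 2 + 1 : ℕ) : ℤ) - ((n0 ^ 2 + 1 : ℕ) : ℤ) = ((n : ℤ) - n0) * (n + n0) := by push_cast; ring
      rwa [e1] at a3
    by_cases h2 : (p : ℤ) ∣ (n : ℤ) - n0
    · left
      have h3 : ¬ (p : ℤ) ∣ (n : ℤ) + n0 := by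
        intro h3
        have h4 : (p : ℤ) ∣ 2 * n := by
          have := dvd_add h2 h3
          have e1 : (n : ℤ) - n0 + (n + n0) = 2 * n := by ring
          rwa [e1] at this
        have h5 : p ∣ 2 * n := by exact_mod_cast h4
        rcases (Nat.Prime.dvd_mul hp).1 h5 with h6 | h6
        · exact hp2 ((Nat.prime_dvd_prime_iff_eq hp Nat.prime_two).1 h6)
        · exact hpn n (hmem n hn).2 h6
      have hcop : IsCoprime ((p ^ 2 : ℕ) : ℤ) ((n : ℤ) + n0) := by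
        push_cast
        apply IsCoprime.pow_left
        exact (Prime.coprime_iff_not_dvd (Nat.prime_iff_prime_int.1 hp)).2 h3
      exact hcop.dvd_of_dvd_mul_right h1
    · right
      have hcop : IsCoprime ((p ^ 2 : ℕ) : ℤ) ((n : ℤ) - n0) := by
        push_cast
        apply IsCoprime.pow_left
        exact (Prime.coprime_iff_not_dvd (Nat.prime_iff_prime_int.1 hp)).2 h2
      exact hcop.dvd_of_dvd_mul_left h1
  have hcov : S ⊆ (S.filter (fun n => ((p ^ 2 : ℕ) : ℤ) ∣ (n : ℤ) - n0)) ∪ (S.filter (fun n => ((p ^ 2 : ℕ) : ℤ) ∣ (n : ℤ) + n0)) := by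
    intro n hn
    rcases hsplit n hn with h | h
    · exact mem_union_left _ (mem_filter.2 ⟨hn, h⟩)
    · exact mem_union_right _ (mem_filter.2 ⟨hn, h⟩)
  have hcong : ∀ n n' : ℕ, ((p ^ 2 : ℕ) : ℤ) ∣ (n : ℤ) - n' → n % p ^ 2 = n' % p ^ 2 := by
    intro n n' h
    have : n ≡ n' [MOD p ^ 2] := by
      apply Nat.ModEq.symm
      exact (Nat.modEq_iff_dvd).2 h
    exact this
  have c1 := class_card N (p ^ 2) hd (S.filter (fun n => ((p ^ 2 : ℕ) : ℤ) ∣ (n : ℤ) - n0))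
    (fun n hn => (hmem n (mem_filter.1 hn).1).1) (by
      intro n hn n' hn'
      apply hcong
      have := dvd_sub (mem_filter.1 hn).2 (mem_filter.1 hn').2
      have e1 : (n : ℤ) - n0 - (n' - n0) = n - n' := by ring
      rwa [e1] at this)
  have c2 := class_card N (p ^ 2) hd (S.filter (fun n => ((p ^ 2 : ℕ) : ℤ) ∣ (n : ℤ) + n0))
    (fun n hn => (hmem n (mem_filter.1 hn).1).1) (by
      intro n hn n' hn'
      apply hcong
      have := dvd_sub (mem_filter.1 hn).2 (mem_filter.1 hn').2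
      have e1 : (n : ℤ) + n0 - (n' + n0) = n - n' := by ring
      rwa [e1] at this)
  have h := (card_le_card hcov).trans (card_union_le _ _)
  omega

lemma ineq : ∀ᶠ N : ℕ in atTop, 2 * (N : ℝ) ^ (0.9 : ℝ) * (1 + Real.log N) + 2 * (N : ℝ) ^ (0.99 : ℝ) ≤ (N : ℝ) ^ (0.995 : ℝ) := by
  have h1 : Tendsto (fun N : ℕ => (N : ℝ) ^ (0.005 : ℝ)) atTop atTop :=
    (tendsto_rpow_atTop (by norm_num)).comp tendsto_natCast_atTop_atTop
  filter_upwards [h1.eventually_ge_atTop 44, eventually_ge_atTop 1] with N hN hN1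
  have hN1r : (1 : ℝ) ≤ N := by exact_mod_cast hN1
  have hN0 : (0 : ℝ) < N := by linarith
  have h2 : Real.log N ≤ 20 * (N : ℝ) ^ (0.05 : ℝ) := by
    have := Real.log_le_rpow_div hN0.le (show (0 : ℝ) < 0.05 by norm_num)
    calc Real.log N ≤ (N : ℝ) ^ (0.05 : ℝ) / 0.05 := this
      _ = _ := by ring
  have h3 : 1 ≤ (N : ℝ) ^ (0.05 : ℝ) := Real.one_le_rpow hN1r (by norm_num)
  have h4 : (N : ℝ) ^ (0.9 : ℝ) * (N : ℝ) ^ (0.05 : ℝ) ≤ (N : ℝ) ^ (0.99 : ℝ) := by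
    rw [← Real.rpow_add hN0]
    exact Real.rpow_le_rpow_of_exponent_le hN1r (by norm_num)
  have h5 : (N : ℝ) ^ (0.995 : ℝ) = (N : ℝ) ^ (0.005 : ℝ) * (N : ℝ) ^ (0.99 : ℝ) := by
    rw [← Real.rpow_add hN0]
    norm_num
  rw [h5]
  have h6 : 0 < (N : ℝ) ^ (0.99 : ℝ) := by positivity
  have h7 : 0 < (N : ℝ) ^ (0.9 : ℝ) := by positivity
  have h8 : 2 * (N : ℝ) ^ (0.9 : ℝ) * (1 + Real.log N) ≤ 42 * (N : ℝ) ^ (0.99 : ℝ) := by
    calc 2 * (N : ℝ) ^ (0.9 : ℝ) * (1 + Real.log N) ≤ 2 * (N : ℝ) ^ (0.9 : ℝ) * (21 * (N : ℝ) ^ (0.05 : ℝ)) := by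
          apply mul_le_mul_of_nonneg_left _ (by positivity)
          linarith
      _ = 42 * ((N : ℝ) ^ (0.9 : ℝ) * (N : ℝ) ^ (0.05 : ℝ)) := by ring
      _ ≤ _ := by linarith
  nlinarith

open Classical in
theorem squares : ∃ N₀ : ℕ, ∀ N : ℕ, N₀ ≤ N → ∀ A ⊆ Finset.Icc 1 N,
    (((A ×ˢ A).filter (fun x : ℕ × ℕ => x.1 < x.2 ∧ ∃ p : ℕ, p.Prime ∧ (N : ℝ) ^ (0.1 : ℝ) < p ∧
      (p : ℝ) ≤ (N : ℝ) ^ (0.99 : ℝ) ∧ (p : ℤ) ^ 2 ∣ ((x.2 : ℤ) - x.1) ^ 2 + 1)).card : ℝ) ≤ A.card * (N : ℝ) ^ (0.995 : ℝ) := by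
  obtain ⟨N₀, hN₀⟩ := eventually_atTop.1 (ineq.and (eventually_ge_atTop 1))
  refine ⟨N₀, fun N hN A hA => ?_⟩
  obtain ⟨hineq, hN1⟩ := hN₀ N hN
  have hN1r : (1 : ℝ) ≤ N := by exact_mod_cast hN1
  have hN0 : (0 : ℝ) < N := by linarith
  -- the bad differences
  set P : Finset ℕ := (Icc 1 ⌊(N : ℝ) ^ (0.99 : ℝ)⌋₊).filter (fun p => p.Prime ∧ (N : ℝ) ^ (0.1 : ℝ) < p) with hP
  set Bd : Finset ℕ := (Icc 1 N).filter (fun n => ∃ p ∈ P, p ^ 2 ∣ n ^ 2 + 1) with hBd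
  have h1 : (((A ×ˢ A).filter (fun x : ℕ × ℕ => x.1 < x.2 ∧ ∃ p : ℕ, p.Prime ∧ (N : ℝ) ^ (0.1 : ℝ) < p ∧
      (p : ℝ) ≤ (N : ℝ) ^ (0.99 : ℝ) ∧ (p : ℤ) ^ 2 ∣ ((x.2 : ℤ) - x.1) ^ 2 + 1)).card) ≤ (A ×ˢ Bd).card := by
    apply card_le_card_of_injOn (fun x => (x.1, x.2 - x.1))
    · intro x hx
      rw [mem_coe, mem_filter, mem_product] at hx
      obtain ⟨⟨hx1, hx2⟩, hlt, p, hp, hp1, hp2, hdvd⟩ := hx
      have a1 := mem_Icc.1 (hA hx1)
      have a2 := mem_Icc.1 (hA hx2)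
      rw [mem_coe, mem_product, hBd, mem_filter, mem_Icc]
      refine ⟨hx1, ⟨by simp only; omega, by simp only; omega⟩, p, ?_, ?_⟩
      · rw [hP, mem_filter, mem_Icc]
        exact ⟨⟨hp.one_lt.le, Nat.le_floor hp2⟩, hp, hp1⟩
      · simp only
        have e1 : (((x.2 - x.1) ^ 2 + 1 : ℕ) : ℤ) = ((x.2 : ℤ) - x.1) ^ 2 + 1 := by
          push_cast [Nat.cast_sub hlt.le]
          ring
        have e2 : ((p ^ 2 : ℕ) : ℤ) ∣ (((x.2 - x.1) ^ 2 + 1 : ℕ) : ℤ) := by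
          rw [e1]; push_cast; exact hdvd
        exact Int.natCast_dvd_natCast.1 e2
    · intro x hx y hy h
      rw [mem_coe, mem_filter] at hx hy
      simp only [Prod.mk.injEq] at h
      ext
      · exact h.1
      · have := hx.2.1
        have := hy.2.1
        omega
  have h2 : (Bd.card : ℝ) ≤ (N : ℝ) ^ (0.995 : ℝ) := by
    have b1 : Bd.card ≤ ∑ p ∈ P, 2 * (N / p ^ 2 + 1) := by
      have hsub : Bd ⊆ P.biUnion (fun p => (Icc 1 N).filter (fun n => p ^ 2 ∣ n ^ 2 + 1)) := by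
        intro n hn
        rw [hBd, mem_filter] at hn
        obtain ⟨hn1, p, hp, hd⟩ := hn
        rw [mem_biUnion]
        exact ⟨p, hp, mem_filter.2 ⟨hn1, hd⟩⟩
      refine (card_le_card hsub).trans (card_biUnion_le.trans (sum_le_sum fun p hp => ?_))
      rw [hP, mem_filter] at hp
      exact roots_card N p hp.2.1
    have b2 : (Bd.card : ℝ) ≤ ∑ p ∈ P, (2 * ((N : ℝ) ^ (0.9 : ℝ) * (1 / p)) + 2) := by
      have : (Bd.card : ℝ) ≤ ((∑ p ∈ P, 2 * (N / p ^ 2 + 1) : ℕ) : ℝ) := by exact_mod_cast b1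
      refine this.trans ?_
      push_cast
      apply sum_le_sum
      intro p hp
      rw [hP, mem_filter] at hp
      have hp0 : (0 : ℝ) < p := by exact_mod_cast hp.2.1.pos
      have hp1 : (N : ℝ) ^ (0.1 : ℝ) ≤ p := hp.2.2.le
      have c1 : ((N / p ^ 2 : ℕ) : ℝ) ≤ (N : ℝ) / p ^ 2 := by
        have := @Nat.cast_div_le ℝ _ _ _ N (p ^ 2)
        push_cast at this
        exact this
      have c2 : (N : ℝ) / p ^ 2 ≤ (N : ℝ) ^ (0.9 : ℝ) * (1 / p) := by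
        rw [div_le_iff₀ (by positivity)]
        have c3 : (N : ℝ) ^ (0.9 : ℝ) * (1 / p) * p ^ 2 = (N : ℝ) ^ (0.9 : ℝ) * p := by field_simp
        rw [c3]
        calc (N : ℝ) = (N : ℝ) ^ (0.9 : ℝ) * (N : ℝ) ^ (0.1 : ℝ) := by
              rw [← Real.rpow_add hN0]; norm_num
          _ ≤ _ := mul_le_mul_of_nonneg_left hp1 (by positivity)
      linarith
    refine b2.trans (le_trans ?_ hineq)
    rw [sum_add_distrib, ← mul_sum, ← mul_sum, sum_const, nsmul_eq_mul]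
    have c4 : ∑ p ∈ P, (1 : ℝ) / p ≤ 1 + Real.log N := by
      have d1 : ∑ p ∈ P, (1 : ℝ) / p ≤ ∑ p ∈ Icc 1 N, (1 : ℝ) / p := by
        apply sum_le_sum_of_subset_of_nonneg
        · intro p hp
          rw [hP, mem_filter, mem_Icc] at hp
          rw [mem_Icc]
          refine ⟨hp.1.1, hp.1.2.trans ?_⟩
          apply Nat.floor_le_of_le
          calc (N : ℝ) ^ (0.99 : ℝ) ≤ (N : ℝ) ^ (1 : ℝ) := Real.rpow_le_rpow_of_exponent_le hN1r (by norm_num)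
            _ = N := Real.rpow_one _
        · intro _ _ _; positivity
      refine d1.trans ?_
      have d2 := harmonic_le_one_add_log N
      rw [harmonic_eq_sum_Icc] at d2
      push_cast at d2
      simpa [one_div] using d2
    have c5 : (P.card : ℝ) ≤ (N : ℝ) ^ (0.99 : ℝ) := by
      have d1 : P.card ≤ ⌊(N : ℝ) ^ (0.99 : ℝ)⌋₊ := by
        refine (card_filter_le _ _).trans ?_
        rw [Nat.card_Icc]
        omega
      have d2 : (P.card : ℝ) ≤ (⌊(N : ℝ) ^ (0.99 : ℝ)⌋₊ : ℝ) := by exact_mod_cast d1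
      exact d2.trans (Nat.floor_le (by positivity))
    have c6 : 0 ≤ (N : ℝ) ^ (0.9 : ℝ) := by positivity
    nlinarith
  calc (((A ×ˢ A).filter (fun x : ℕ × ℕ => x.1 < x.2 ∧ ∃ p : ℕ, p.Prime ∧ (N : ℝ) ^ (0.1 : ℝ) < p ∧
      (p : ℝ) ≤ (N : ℝ) ^ (0.99 : ℝ) ∧ (p : ℤ) ^ 2 ∣ ((x.2 : ℤ) - x.1) ^ 2 + 1)).card : ℝ) ≤ ((A ×ˢ Bd).card : ℝ) := by
        exact_mod_cast h1
    _ = A.card * Bd.card := by rw [card_product]; push_cast; ring
    _ ≤ _ := mul_le_mul_of_nonneg_left h2 (Nat.cast_nonneg _)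

theorem omega3 : ∃ N₀ : ℕ, ∀ N : ℕ, N₀ ≤ N → ∀ n : ℕ, 0 < n → n < N →
    (∀ p : ℕ, p.Prime → p ∣ n ^ 2 + 1 → (N : ℝ) ^ (0.1 : ℝ) < p) →
    (∀ p : ℕ, p.Prime → (p : ℝ) ≤ (N : ℝ) ^ (0.99 : ℝ) → ¬ p ^ 2 ∣ n ^ 2 + 1) →
    ∑ p ∈ (n ^ 2 + 1).primeFactors.filter (fun p : ℕ => Real.log p ≤ 10 / 11 * Real.log N),
      (5 / 9 * (1 - 1.1 * Real.log ((p : ℕ) : ℝ) / Real.log N)) < 1 →
    ArithmeticFunction.cardFactors (n ^ 2 + 1) ≤ 3 := by
  refine ⟨2, fun N hN n hn hnN hbig hsq hsum => ?_⟩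
  have hN2 : (2 : ℝ) ≤ N := by exact_mod_cast hN
  have hN1 : (1 : ℝ) ≤ N := by linarith
  have hN0 : (0 : ℝ) < N := by linarith
  have hlog : 0 < Real.log N := Real.log_pos (by linarith)
  have hm0 : n ^ 2 + 1 ≠ 0 := by omega
  have hmN : ((n ^ 2 + 1 : ℕ) : ℝ) ≤ (N : ℝ) ^ 2 := by
    have h1 : n ^ 2 + 1 ≤ N ^ 2 := by
      have : n + 1 ≤ N := hnN
      nlinarith
    exact_mod_cast h1
  -- squarefree
  have hsf : Squarefree (n ^ 2 + 1) := by
    rw [Nat.squarefree_iff_prime_squarefree]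
    intro p hp hdvd
    rw [← pow_two] at hdvd
    rcases le_or_gt (p : ℝ) ((N : ℝ) ^ (0.99 : ℝ)) with h1 | h1
    · exact hsq p hp h1 hdvd
    · obtain ⟨q, hq⟩ := hdvd
      have hq0 : q ≠ 0 := by
        rintro rfl
        omega
      by_cases hq1 : q = 1
      · -- a square plus one is not a square
        rw [hq1, mul_one] at hq
        have h2 : n < p := by nlinarith
        have h3 : n + 1 ≤ p := h2
        nlinarith
      · obtain ⟨l, hl, hlq⟩ := Nat.exists_prime_and_dvd hq1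
        have h2 := hbig l hl (hq ▸ (hlq.trans (Dvd.intro_left _ rfl)))
        have h3 : (l : ℝ) ≤ q := by exact_mod_cast Nat.le_of_dvd (Nat.pos_of_ne_zero hq0) hlq
        have hqr : (p : ℝ) ^ 2 * q ≤ (N : ℝ) ^ 2 := by
          have : ((n ^ 2 + 1 : ℕ) : ℝ) = (p : ℝ) ^ 2 * q := by rw [hq]; push_cast; ring
          rw [← this]; exact hmN
        have h4 : (N : ℝ) ^ (1.98 : ℝ) ≤ (p : ℝ) ^ 2 := by
          calc (N : ℝ) ^ (1.98 : ℝ) = ((N : ℝ) ^ (0.99 : ℝ)) ^ 2 := by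
                rw [← Real.rpow_natCast, ← Real.rpow_mul hN0.le]; norm_num
            _ ≤ _ := pow_le_pow_left₀ (by positivity) h1.le 2
        have h5 : (N : ℝ) ^ (0.1 : ℝ) < q := lt_of_lt_of_le h2 h3
        have h6 : (N : ℝ) ^ 2 < (p : ℝ) ^ 2 * q := by
          calc (N : ℝ) ^ 2 = (N : ℝ) ^ (2 : ℝ) := by norm_cast
            _ ≤ (N : ℝ) ^ (2.08 : ℝ) := Real.rpow_le_rpow_of_exponent_le hN1 (by norm_num)
            _ = (N : ℝ) ^ (1.98 : ℝ) * (N : ℝ) ^ (0.1 : ℝ) := by rw [← Real.rpow_add hN0]; norm_num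
            _ < (N : ℝ) ^ (1.98 : ℝ) * q := mul_lt_mul_of_pos_left h5 (by positivity)
            _ ≤ _ := mul_le_mul_of_nonneg_right h4 (Nat.cast_nonneg _)
        linarith
  have hcard : ArithmeticFunction.cardFactors (n ^ 2 + 1) = (n ^ 2 + 1).primeFactors.card := by
    rw [← (ArithmeticFunction.cardDistinctFactors_eq_cardFactors_iff_squarefree hm0).2 hsf]
    rfl
  rw [hcard]
  set PF := (n ^ 2 + 1).primeFactors with hPF
  have hlogsum : ∑ p ∈ PF, Real.log p = Real.log ((n ^ 2 + 1 : ℕ) : ℝ) := by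
    have h1 : ∏ p ∈ PF, p = n ^ 2 + 1 := Nat.prod_primeFactors_of_squarefree hsf
    calc ∑ p ∈ PF, Real.log p = Real.log (∏ p ∈ PF, (p : ℝ)) := by
          rw [Real.log_prod]
          intro p hp
          have := (Nat.prime_of_mem_primeFactors hp).pos
          positivity
      _ = Real.log ((∏ p ∈ PF, p : ℕ) : ℝ) := by push_cast; rfl
      _ = _ := by rw [h1]
  have hlog2 : Real.log ((n ^ 2 + 1 : ℕ) : ℝ) ≤ 2 * Real.log N := by
    calc Real.log ((n ^ 2 + 1 : ℕ) : ℝ) ≤ Real.log ((N : ℝ) ^ 2) := Real.log_le_log (by positivity) hmN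
      _ = 2 * Real.log N := by rw [Real.log_pow]; norm_num
  have hall : (PF.card : ℝ) - 2.2 ≤ ∑ p ∈ PF, (1 - 1.1 * Real.log p / Real.log N) := by
    rw [sum_sub_distrib]
    simp only [sum_const, nsmul_eq_mul, mul_one]
    rw [← sum_div, ← mul_sum, hlogsum]
    have : 1.1 * Real.log ((n ^ 2 + 1 : ℕ) : ℝ) / Real.log N ≤ 2.2 := by
      rw [div_le_iff₀ hlog]
      linarith
    linarith
  have hrest : ∑ p ∈ PF, (1 - 1.1 * Real.log p / Real.log N) ≤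
      ∑ p ∈ PF.filter (fun p : ℕ => Real.log p ≤ 10 / 11 * Real.log N), (1 - 1.1 * Real.log p / Real.log N) := by
    rw [← sum_filter_add_sum_filter_not PF (fun p : ℕ => Real.log p ≤ 10 / 11 * Real.log N)]
    have : ∑ p ∈ PF.filter (fun p : ℕ => ¬ Real.log p ≤ 10 / 11 * Real.log N), (1 - 1.1 * Real.log p / Real.log N) ≤ 0 := by
      apply sum_nonpos
      intro p hp
      rw [mem_filter, not_le] at hp
      have h1 : 1 ≤ 1.1 * Real.log p / Real.log N := by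
        rw [le_div_iff₀ hlog]
        have := hp.2
        norm_num at this ⊢
        linarith
      linarith
    linarith
  have hlt : ∑ p ∈ PF.filter (fun p : ℕ => Real.log p ≤ 10 / 11 * Real.log N), (1 - 1.1 * Real.log p / Real.log N) < 9 / 5 := by
    rw [← mul_sum] at hsum
    linarith
  have hfin : (PF.card : ℝ) < 4 := by
    have : (PF.card : ℝ) - 2.2 < 9 / 5 := lt_of_le_of_lt (hall.trans hrest) hlt
    linarith
  have : PF.card < 4 := by exact_mod_cast hfin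
  omega

end Pool.Agent.H31.P3
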